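import Pool.Agent.W939.Med.Cantor
import Pool.Agent.W939.Med.Form

set_option autoImplicit false

/-!
# Medvedev degrees of closed sets in Baire space and in Cantor space

The lattice of the Medvedev degrees of the nonempty closed subsets of Baire space and the lattice
of the Medvedev degrees of the nonempty closed subsets of Cantor space are not elementarily
equivalent in the language of lattices. In particular they are not isomorphic.

Call `f` a component of `A` if `f` is meet-irreducible and `A = f ⊓ A'` for some `A'` which is not
below `f`. In Baire space an infinite uniform meet `{n ⌢ f_n : n}` of independent degrees has the
components `f_n`, and every infinite set `I` of them is split by some degree `x = {X}`: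
`A ⊔ x ≥ U ⊓ V` where infinitely many `f_n`, `n ∈ I`, are not above `U` modulo `x`, and infinitely
many are not above `V` modulo `x`. In Cantor space the components of `A` have a limit point by
compactness, and no `x` can split a sequence of components that converges to it. Finiteness is
expressed with the help of a second independent family.
-/

namespace Pool.Agent.Results.MP_ed0562_lc.NotElemEquiv

open FirstOrder Pool.Agent.W939.Med

/-- The lattice of the Medvedev degrees of the nonempty closed subsets of Baire space and the
lattice of the Medvedev degrees of the nonempty closed subsets of Cantor space are not
elementarily equivalent. -/
theorem result :
    ¬ latticeLang.ElementarilyEquivalent (Degrees Space.baire) (Degrees Space.cantor) := by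
  intro h
  have h1 := (Language.elementarilyEquivalent_iff.1 h sentF).1 ((realize_sentF _).2 sent_baire)
  exact not_sent_cantor ((realize_sentF _).1 h1)

end Pool.Agent.Results.MP_ed0562_lc.NotElemEquiv
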